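import Mathlib
import Pool.Agent.Q33.Gcd.Main

/-!
The greatest common divisor `G k` of `C(2k,k), C(3k,k), …, C((k+1)k,k)` equals `1` exactly when
`k + 1 > P(k+1)^2`, where `P m` is the largest prime-power divisor (in the factorisation) of `m`.
-/

namespace Pool.Agent.Results.MP_cb2649_nt.GcdOneIffShifted

open Q33.Gcd

/-- `G(k) = gcd(C(2k,k), C(3k,k), …, C((k+1)k,k))`. -/
def G (k : ℕ) : ℕ := (Finset.Icc 2 (k + 1)).gcd fun j => Nat.choose (j * k) k

/-- `P(k)`: the largest of the prime powers `p ^ e` in the factorisation of `k`. -/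
def P (k : ℕ) : ℕ := k.primeFactors.sup fun p => p ^ k.factorization p

theorem exists_nc {p S n K : ℕ} (hp : p.Prime) (h1 : p ^ S ≤ n) (h2 : n < p ^ (S + 1))
    (h3 : ¬ p ∣ n + 1) (h4 : ¬ p ^ (S + 1) ∣ K + 1) :
    ∃ t, 1 ≤ t ∧ t ≤ n ∧ NC p n (t * K) := by
  by_contra hcon
  push Not at hcon
  set Q := p ^ (S + 1) with hQ
  have hQ0 : 0 < Q := Nat.pow_pos hp.pos
  have hpQ : p ∣ Q := dvd_pow_self p (by omega)
  have hS0 : 0 < p ^ S := Nat.pow_pos hp.pos
  have hQ1 : 1 < Q := lt_of_lt_of_le hp.one_lt (Nat.le_of_dvd hQ0 hpQ)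
  by_cases hpK : p ∣ K
  · refine hcon (p ^ S) hS0 h1 (nc_of_dom hp.pos S n _ h2 ?_)
    have : p ^ (S + 1) ∣ p ^ S * K := by
      rw [pow_succ]; exact mul_dvd_mul_left _ hpK
    rw [Nat.mod_eq_zero_of_dvd this]
    exact dom_zero _ _
  · have hcop : Nat.Coprime K Q :=
      (Nat.Coprime.pow_left (S + 1) ((Nat.Prime.coprime_iff_not_dvd hp).2 hpK)).symm
    -- `w = -1/K`
    obtain ⟨w, hw⟩ : ∃ w : ℕ, (K : ZMod Q) * (w : ZMod Q) = -1 := by
      have : NeZero Q := ⟨hQ0.ne'⟩
      refine ⟨(-(K : ZMod Q)⁻¹).val, ?_⟩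
      rw [ZMod.natCast_zmod_val, mul_neg, ZMod.coe_mul_inv_eq_one K hcop]
    have hwp : ¬ p ∣ w := by
      intro hd
      have h5 : ((K * w + 1 : ℕ) : ZMod Q) = 0 := by
        push_cast; rw [hw]; ring
      rw [ZMod.natCast_eq_zero_iff] at h5
      have h6 : p ∣ K * w + 1 := hpQ.trans h5
      have h7 : p ∣ 1 := (Nat.dvd_add_right (hd.mul_left K)).1 h6
      exact absurd (Nat.le_of_dvd one_pos h7) (by have := hp.two_le; omega)
    set c := Q - 1 - n with hc
    have hcS : c + p ^ S < Q := by omega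
    have H : ∀ r, r < Q → Dom p r c → (r * w) % Q ≤ c := by
      intro r hr hdom
      by_contra hgt
      push Not at hgt
      set v := r * w % Q with hv
      have hvQ : v < Q := Nat.mod_lt _ hQ0
      refine hcon (Q - v) (by omega) (by omega) (nc_of_dom hp.pos S n _ h2 ?_)
      have e1 : (((Q - v) * K : ℕ) : ZMod Q) = ((r : ℕ) : ZMod Q) := by
        rw [Nat.cast_mul, Nat.cast_sub hvQ.le, ZMod.natCast_self, hv, ZMod.natCast_mod,
          Nat.cast_mul]
        linear_combination (-(r : ZMod Q)) * hw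
      rw [ZMod.natCast_eq_natCast_iff', Nat.mod_eq_of_lt hr] at e1
      rw [← hQ, e1]
      exact hdom
    have key := claim hp hcS hwp H (S + 1) le_rfl
    rw [Nat.sub_self, pow_zero, one_mul, Nat.div_one] at key
    have hpc : Nat.Coprime Q c := by
      apply Nat.Coprime.pow_left
      rw [Nat.Prime.coprime_iff_not_dvd hp]
      intro hd
      apply h3
      have : Q = c + (n + 1) := by omega
      rw [this] at hpQ
      exact (Nat.dvd_add_right hd).1 hpQ
    have h5 : w ≡ 1 [MOD Q] := by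
      apply Nat.ModEq.cancel_left_of_coprime hpc
      simpa using key
    have h6 : (w : ZMod Q) = ((1 : ℕ) : ZMod Q) := (ZMod.natCast_eq_natCast_iff _ _ _).2 h5
    rw [h6] at hw
    apply h4
    rw [← ZMod.natCast_eq_zero_iff]
    push_cast at hw ⊢
    rw [mul_one] at hw
    rw [hw]; ring

/-- the prime-by-prime form: `p ∣ G k` iff `k + 1 ≤ (p-part of k+1)^2`. -/
theorem dvd_of_le {p k a m : ℕ} (hp : p.Prime) (hk : k + 1 = p ^ a * m) (ha : ¬ p ∣ m)
    (hle : m ≤ p ^ a) (j : ℕ) (hj1 : 1 ≤ j) (hj : j ≤ k) :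
    p ∣ Nat.choose (j * k + k) k := by
  by_contra hnd
  rw [not_dvd_choose_iff hp] at hnd
  set q := p ^ a with hq
  have hq0 : 0 < q := Nat.pow_pos hp.pos
  have hm0 : 0 < m := by
    rcases Nat.eq_zero_or_pos m with rfl | h
    · simp at ha
    · exact h
  have hk' : k = q * (m - 1) + (q - 1) := by
    obtain ⟨m', rfl⟩ : ∃ m', m = m' + 1 := ⟨m - 1, by omega⟩
    rw [Nat.add_sub_cancel]
    rw [mul_add, mul_one] at hk
    omega
  have h1 := hnd a
  rw [← hq] at h1
  have h2 : k % q = q - 1 := by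
    rw [hk', Nat.mul_add_mod, Nat.mod_eq_of_lt (by omega)]
  have h3 : j * k % q = 0 := by omega
  have hcop : Nat.Coprime q k := by
    have : Nat.Coprime (k + 1) k := by simp
    exact Nat.Coprime.coprime_dvd_left ⟨m, hk⟩ this
  have h4 : q ∣ j := (Nat.Coprime.dvd_mul_right hcop).1 (Nat.dvd_of_mod_eq_zero h3)
  obtain ⟨t, rfl⟩ := h4
  have ht0 : 1 ≤ t := by
    rcases Nat.eq_zero_or_pos t with rfl | h
    · simp at hj1
    · exact h
  have htm : t < m := by
    have : q * t < q * m := by omega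
    exact Nat.lt_of_mul_lt_mul_left this
  have h5 := hnd (a + a)
  rw [pow_add, ← hq] at h5
  have hkq : k < q * q := by
    have : q * m ≤ q * q := Nat.mul_le_mul_left _ hle
    omega
  rw [Nat.mod_eq_of_lt hkq, mul_assoc, Nat.mul_mod_mul_left] at h5
  have h6 : t * k % q = q - t := by
    have e1 : t * k + t = q * (t * m) := by
      calc t * k + t = t * (k + 1) := by ring
        _ = q * (t * m) := by rw [hk]; ring
    have e2 : t * k = q * (t * m - 1) + (q - t) := by
      obtain ⟨x, hx⟩ : ∃ x, t * m = x + 1 := ⟨t * m - 1, by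
        have : 0 < t * m := Nat.mul_pos ht0 hm0
        omega⟩
      rw [hx] at e1 ⊢
      rw [Nat.add_sub_cancel]
      rw [mul_add, mul_one] at e1
      omega
    rw [e2, Nat.mul_add_mod, Nat.mod_eq_of_lt (by omega)]
  rw [h6] at h5
  have h7 : q * (q - t) + q * t = q * q := by
    rw [← mul_add]; congr 1; omega
  have h8 : q * t + q ≤ q * m := by
    calc q * t + q = q * (t + 1) := by ring
      _ ≤ q * m := Nat.mul_le_mul_left _ htm
  omega

theorem exists_not_dvd {p k a m : ℕ} (hp : p.Prime) (hk : k + 1 = p ^ a * m) (ha : ¬ p ∣ m)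
    (hlt : p ^ a < m) : ∃ j, 1 ≤ j ∧ j ≤ k ∧ ¬ p ∣ Nat.choose (j * k + k) k := by
  set q := p ^ a with hq
  have hq0 : 0 < q := Nat.pow_pos hp.pos
  obtain ⟨n, rfl⟩ : ∃ n, m = n + 1 := ⟨m - 1, by omega⟩
  have hn0 : n ≠ 0 := by omega
  have hk' : k = (q - 1) + q * n := by
    rw [mul_add, mul_one] at hk
    omega
  set S := Nat.log p n with hS
  have h1 : p ^ S ≤ n := Nat.pow_log_le_self p hn0
  have h2 : n < p ^ (S + 1) := Nat.lt_pow_succ_log_self hp.one_lt n
  have h4 : ¬ p ^ (S + 1) ∣ k + 1 := by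
    intro hd
    have haS : a < S + 1 := by
      have : p ^ a < p ^ (S + 1) := by rw [← hq]; omega
      exact (Nat.pow_lt_pow_iff_right hp.one_lt).1 this
    have : p ^ (a + 1) ∣ p ^ a * (n + 1) := by
      rw [← hq, ← hk]
      exact (pow_dvd_pow p haS).trans hd
    rw [pow_succ] at this
    exact ha (Nat.dvd_of_mul_dvd_mul_left (Nat.pow_pos hp.pos) this)
  obtain ⟨t, ht1, ht2, hnc⟩ := exists_nc hp h1 h2 ha h4
  refine ⟨q * t, Nat.mul_pos hq0 ht1, ?_, ?_⟩
  · have : q * t ≤ q * n := Nat.mul_le_mul_left _ ht2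
    omega
  · rw [not_dvd_choose_iff hp]
    intro i
    rcases le_total i a with hi | hi
    · have hd : p ^ i ∣ q * t * k := by
        rw [mul_assoc]; exact (pow_dvd_pow p hi).mul_right _
      rw [Nat.mod_eq_zero_of_dvd hd]
      exact Nat.mod_lt _ (Nat.pow_pos hp.pos)
    · obtain ⟨l, rfl⟩ := Nat.exists_eq_add_of_le hi
      rw [pow_add, ← hq, mul_assoc q t k, Nat.mul_mod_mul_left]
      have e1 : k % (q * p ^ l) = (q - 1) + q * (n % p ^ l) := by
        rw [Nat.mod_mul]
        have e2 : k % q = q - 1 := by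
          rw [hk', Nat.add_mul_mod_self_left, Nat.mod_eq_of_lt (by omega)]
        have e3 : k / q = n := by
          rw [hk', Nat.add_mul_div_left _ _ hq0, Nat.div_eq_of_lt (by omega)]
          omega
        rw [e2, e3]
      rw [e1]
      have h5 := hnc l
      have h6 : q * (n % p ^ l + t * k % p ^ l + 1) ≤ q * p ^ l := Nat.mul_le_mul_left _ h5
      rw [mul_add, mul_add, mul_one] at h6
      omega

theorem dvd_G_iff (k : ℕ) (hk : 2 ≤ k) (p : ℕ) (hp : p.Prime) :
    p ∣ G k ↔ k + 1 ≤ (p ^ (k + 1).factorization p) ^ 2 := by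
  set a := (k + 1).factorization p with ha
  set m := (k + 1) / p ^ a with hm
  have hkm : k + 1 = p ^ a * m := (Nat.ordProj_mul_ordCompl_eq_self (k + 1) p).symm
  have hpm : ¬ p ∣ m := Nat.not_dvd_ordCompl hp (by omega)
  have hq0 : 0 < p ^ a := Nat.pow_pos hp.pos
  have hsq : k + 1 ≤ (p ^ a) ^ 2 ↔ m ≤ p ^ a := by
    rw [sq]
    constructor
    · intro h
      rw [hkm] at h
      exact Nat.le_of_mul_le_mul_left h hq0
    · intro h
      rw [hkm]
      exact Nat.mul_le_mul_left _ h
  have hG : p ∣ G k ↔ ∀ j, 1 ≤ j → j ≤ k → p ∣ Nat.choose (j * k + k) k := by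
    rw [G, Finset.dvd_gcd_iff]
    constructor
    · intro h j h1 h2
      have := h (j + 1) (Finset.mem_Icc.2 ⟨by omega, by omega⟩)
      rwa [show (j + 1) * k = j * k + k by ring] at this
    · intro h j hj
      rw [Finset.mem_Icc] at hj
      obtain ⟨i, rfl⟩ : ∃ i, j = i + 1 := ⟨j - 1, by omega⟩
      rw [show (i + 1) * k = i * k + k by ring]
      exact h i (by omega) (by omega)
  rw [hsq, hG]
  constructor
  · intro h
    by_contra hlt
    push Not at hlt
    obtain ⟨j, h1, h2, h3⟩ := exists_not_dvd hp hkm hpm hlt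
    exact h3 (h j h1 h2)
  · intro h j h1 h2
    exact dvd_of_le hp hkm hpm h j h1 h2

theorem G_ne_zero (k : ℕ) (hk : 2 ≤ k) : G k ≠ 0 := by
  intro h
  rw [G, Finset.gcd_eq_zero_iff] at h
  have := h 2 (Finset.mem_Icc.2 ⟨le_rfl, by omega⟩)
  exact absurd this (Nat.choose_pos (by omega)).ne'

theorem G_eq_one_iff (k : ℕ) (hk : 2 ≤ k) : G k = 1 ↔ P (k + 1) ^ 2 < k + 1 := by
  constructor
  · intro h
    have hne : (k + 1).primeFactors.Nonempty := by
      rw [Nat.nonempty_primeFactors]; omega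
    obtain ⟨p, hp, hpe⟩ := Finset.exists_mem_eq_sup _ hne
      (fun p => p ^ (k + 1).factorization p)
    have hprime := Nat.prime_of_mem_primeFactors hp
    have hPe : P (k + 1) = p ^ (k + 1).factorization p := hpe
    rw [hPe]
    by_contra hle
    push Not at hle
    have := (dvd_G_iff k hk p hprime).2 hle
    rw [h] at this
    exact hprime.one_lt.ne' (Nat.dvd_one.1 this)
  · intro h
    by_contra hne
    obtain ⟨p, hp, hd⟩ := Nat.exists_prime_and_dvd hne
    have h1 := (dvd_G_iff k hk p hp).1 hd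
    have h2 : p ^ (k + 1).factorization p ≤ P (k + 1) := by
      by_cases hpd : p ∣ k + 1
      · exact Finset.le_sup (f := fun p => p ^ (k + 1).factorization p)
          (Nat.mem_primeFactors.2 ⟨hp, hpd, by omega⟩)
      · exfalso
        rw [Nat.factorization_eq_zero_of_not_dvd hpd] at h1
        simp at h1
        omega
    have h3 : (p ^ (k + 1).factorization p) ^ 2 ≤ P (k + 1) ^ 2 := Nat.pow_le_pow_left h2 2
    omega

theorem P_thirty : P 30 = 5 := by
  have h : (30 : ℕ).primeFactors = {2, 3, 5} := by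
    rw [show (30 : ℕ) = 2 * (3 * 5) by norm_num, Nat.primeFactors_mul (by norm_num) (by norm_num),
      Nat.primeFactors_mul (by norm_num) (by norm_num), Nat.Prime.primeFactors (by norm_num),
      Nat.Prime.primeFactors (by norm_num), Nat.Prime.primeFactors (by norm_num)]
    rfl
  have hf : ∀ p ∈ ({2, 3, 5} : Finset ℕ), (30 : ℕ).factorization p = 1 := by
    intro p hp
    have e : (30 : ℕ).factorization = (2 : ℕ).factorization + ((3 : ℕ).factorization +
        (5 : ℕ).factorization) := by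
      rw [show (30 : ℕ) = 2 * (3 * 5) by norm_num, Nat.factorization_mul (by norm_num) (by norm_num),
        Nat.factorization_mul (by norm_num) (by norm_num)]
    rw [e, Nat.Prime.factorization (by norm_num), Nat.Prime.factorization (by norm_num),
      Nat.Prime.factorization (by norm_num)]
    simp only [Finset.mem_insert, Finset.mem_singleton] at hp
    rcases hp with rfl | rfl | rfl <;> simp
  rw [P, h]
  rw [Finset.sup_congr rfl (fun p hp => by rw [hf p hp, pow_one] :
    ∀ p ∈ ({2, 3, 5} : Finset ℕ), p ^ (30 : ℕ).factorization p = p)]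
  rfl

theorem P_twentynine : P 29 = 29 := by
  rw [P, Nat.Prime.primeFactors (by norm_num), Finset.sup_singleton,
    Nat.Prime.factorization_self (by norm_num), pow_one]

theorem result :
    (∀ k : ℕ, 2 ≤ k → ∀ p : ℕ, p.Prime →
      (p ∣ G k ↔ k + 1 ≤ (p ^ (k + 1).factorization p) ^ 2)) ∧
    (∀ k : ℕ, 2 ≤ k → (G k = 1 ↔ P (k + 1) < (k + 1) / P (k + 1))) ∧
    (G 29 = 1 ∧ ¬ P 29 < 29 / P 29) ∧
    ¬ (∀ k : ℕ, 2 ≤ k → (G k = 1 ↔ P k < k / P k)) := by
  have h29 : G 29 = 1 ∧ ¬ P 29 < 29 / P 29 := by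
    refine ⟨?_, ?_⟩
    · rw [G_eq_one_iff 29 (by norm_num), P_thirty]
      norm_num
    · rw [P_twentynine]; norm_num
  refine ⟨dvd_G_iff, ?_, h29, ?_⟩
  · intro k hk
    rw [G_eq_one_iff k hk]
    have hne : (k + 1).primeFactors.Nonempty := by
      rw [Nat.nonempty_primeFactors]; omega
    obtain ⟨p, hp, hpe⟩ := Finset.exists_mem_eq_sup _ hne
      (fun p => p ^ (k + 1).factorization p)
    have hprime := Nat.prime_of_mem_primeFactors hp
    have hPe : P (k + 1) = p ^ (k + 1).factorization p := hpe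
    have hd : P (k + 1) ∣ k + 1 := by rw [hPe]; exact Nat.ordProj_dvd _ _
    have h0 : 0 < P (k + 1) := by rw [hPe]; exact Nat.pow_pos hprime.pos
    obtain ⟨m, hm⟩ := hd
    have e : (k + 1) / P (k + 1) = m := by
      rw [Nat.div_eq_iff_eq_mul_right h0 ⟨m, hm⟩]
      exact hm
    rw [e, sq]
    constructor
    · intro h
      apply Nat.lt_of_mul_lt_mul_left (a := P (k + 1))
      omega
    · intro h
      have := Nat.mul_lt_mul_of_pos_left h h0
      omega
  · intro h
    exact h29.2 ((h 29 (by norm_num)).1 h29.1)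

end Pool.Agent.Results.MP_cb2649_nt.GcdOneIffShifted
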